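import Pool.Agent.VMX.StmtsC

/-!
# VMX squad, row MCV: the family of Theorem A is a mixing class
-/

set_option autoImplicit false

open Matrix Filter Topology

namespace Pool.Agent.VMX.H27

open Pool.Agent.PFS Pool.Agent.PFJ Pool.Agent.NBT

theorem mcv (h1 : MixStmt) : McvStmt := by
  intro n k C Γ c F hS hne
  obtain ⟨ε₁, he1, he2, hmix⟩ := h1 n C Γ Γ (k + 1) 0 c F hS
  refine ⟨hne, hS.pes, ?_, hS.scl, hS.cld, ?_⟩
  · intro w hw g hg s hs
    exact hS.scl _ (hS.inv w hw g hg) (fun _ => s) (fun _ => hs)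
  · intro w hw
    have hopen : IsOpen C := hS.cc.isOpen
    obtain ⟨ρ, hρ, hball⟩ := Metric.isOpen_iff.1 hopen _ hw
    have hk0 : (0 : ℝ) < (k : ℝ) + 1 := by positivity
    refine ⟨min (ρ * ε₁ / 4) (ρ / (4 * ((k : ℝ) + 1))), ?_, ?_⟩
    · apply lt_min
      · positivity
      · positivity
    · intro x z hx hz hxz
      set ε := min (ρ * ε₁ / 4) (ρ / (4 * ((k : ℝ) + 1))) with hεdef
      have hεa : ε ≤ ρ * ε₁ / 4 := min_le_left _ _
      have hεb : ε ≤ ρ / (4 * ((k : ℝ) + 1)) := min_le_right _ _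
      have hsum : ‖∑ i, x i - ∑ i, w i‖ ≤ ρ / 4 := by
        rw [← Finset.sum_sub_distrib]
        have h3 : ‖∑ i, (x i - w i)‖ ≤ ∑ _i : Fin (k + 1), ε :=
          norm_sum_le_of_le _ (fun i _ => (hxz i).1.le)
        have h4 : (∑ _i : Fin (k + 1), ε) = ((k : ℝ) + 1) * ε := by
          rw [Finset.sum_const, Finset.card_univ, Fintype.card_fin, nsmul_eq_mul]
          push_cast
          ring
        have h5 : ((k : ℝ) + 1) * ε ≤ ((k : ℝ) + 1) * (ρ / (4 * ((k : ℝ) + 1))) :=
          mul_le_mul_of_nonneg_left hεb hk0.le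
        have h6 : ((k : ℝ) + 1) * (ρ / (4 * ((k : ℝ) + 1))) = ρ / 4 := by
          field_simp
        linarith
      have hdiff : ∀ i, ‖z i - x i‖ ≤ 2 * ε := by
        intro i
        have h3 : z i - x i = (z i - w i) - (x i - w i) := by abel
        rw [h3]
        have h4 := norm_sub_le (z i - w i) (x i - w i)
        have h5 := (hxz i).1
        have h6 := (hxz i).2
        linarith
      have hin : ∀ u : V n, ‖u‖ ≤ 2 * ε → ε₁ • (∑ i, x i) + u ∈ closure C := by
        intro u hu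
        have h3 : ε₁ • (∑ i, x i) + u = ε₁ • (∑ i, x i + ε₁⁻¹ • u) := by
          rw [smul_add, smul_smul, mul_inv_cancel₀ he1.ne', one_smul]
        rw [h3]
        apply subset_closure
        apply hS.cc.smul _ _ _ he1
        apply hball
        rw [Metric.mem_ball, dist_eq_norm]
        have h4 : (∑ i, x i + ε₁⁻¹ • u) - ∑ i, w i = (∑ i, x i - ∑ i, w i) + ε₁⁻¹ • u := by abel
        rw [h4]
        have h5 := norm_add_le (∑ i, x i - ∑ i, w i) (ε₁⁻¹ • u)
        have h6 : ‖ε₁⁻¹ • u‖ ≤ ρ / 2 := by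
          rw [norm_smul, Real.norm_of_nonneg (inv_nonneg.2 he1.le)]
          have h7 : ‖u‖ ≤ ρ * ε₁ / 2 := by linarith
          calc ε₁⁻¹ * ‖u‖ ≤ ε₁⁻¹ * (ρ * ε₁ / 2) :=
                mul_le_mul_of_nonneg_left h7 (inv_nonneg.2 he1.le)
            _ = ρ / 2 := by field_simp
        linarith
      apply hmix x z hx hz
      intro i
      constructor
      · have h3 := hin (-(z i - x i)) (by rw [norm_neg]; exact hdiff i)
        rw [← sub_eq_add_neg] at h3
        exact h3
      · exact hin (z i - x i) (hdiff i)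

end Pool.Agent.VMX.H27
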