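import Pool.Agent.VMX.StmtsB

/-!
# VMX squad, row QMF: the largest family with property (P)
-/

set_option autoImplicit false

open Matrix Filter Topology

namespace Pool.Agent.VMX.H27

open Pool.Agent.PFS Pool.Agent.PFJ Pool.Agent.NBT

/-- a pair which is not proportional stays so nearby -/
private theorem not_mul {n : ℕ} (u v : ℕ → V n) (e z : V n) (hu : Tendsto u atTop (𝓝 e))
    (hv : Tendsto v atTop (𝓝 z)) (hz : z ≠ 0) (he : ∀ a : ℝ, e ≠ a • z) :
    ∀ᶠ k in atTop, ∀ a : ℝ, u k ≠ a • v k := by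
  obtain ⟨j, hj⟩ : ∃ j, z j ≠ 0 := by
    by_contra hcon
    push Not at hcon
    exact hz (funext hcon)
  obtain ⟨i, hi⟩ : ∃ i, e i * z j - e j * z i ≠ 0 := by
    by_contra hcon
    push Not at hcon
    refine he (e j / z j) (funext fun i => ?_)
    have h1 := sub_eq_zero.1 (hcon i)
    show e i = e j / z j * z i
    rw [div_mul_eq_mul_div, ← h1, mul_div_assoc, div_self hj, mul_one]
  have hui : ∀ l, Tendsto (fun k => u k l) atTop (𝓝 (e l)) := fun l => (tendsto_pi_nhds.1 hu) l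
  have hvi : ∀ l, Tendsto (fun k => v k l) atTop (𝓝 (z l)) := fun l => (tendsto_pi_nhds.1 hv) l
  have h1 : Tendsto (fun k => u k i * v k j - u k j * v k i) atTop
      (𝓝 (e i * z j - e j * z i)) :=
    ((hui i).mul (hvi j)).sub ((hui j).mul (hvi i))
  filter_upwards [h1.eventually_ne hi] with k hk a ha
  apply hk
  rw [ha]
  show a * v k i * v k j - a * v k j * v k i = 0
  ring

private theorem act_inv_ne {n : ℕ} {g : GL (Fin n) ℝ} {x : V n} (hx : act g x ≠ 0) : x ≠ 0 := by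
  rintro rfl
  exact hx (CC.act_zero g)

private theorem pp_moves {n K : ℕ} {C : Set (V n)} {Γ : Subgroup (GL (Fin n) ℝ)} {p : Fin K}
    {J : Finset (Fin K)} {c : Fin K → ℕ} : PP C Γ p J c (QM C Γ p J c) := by
  refine ⟨?_, ?_⟩
  · rintro z ⟨S, hS, hz⟩
    exact hS.1 z hz
  · rintro z ⟨S, hS, hz⟩ m hm
    obtain ⟨E, hE1, hE2, hE3⟩ := hS.2 z hz m hm
    exact ⟨E, hE1, hE2, fun h hh ha => ⟨S, hS, hE3 h hh ha⟩⟩

private theorem inv_case {n K : ℕ} {C : Set (V n)} {Γ : Subgroup (GL (Fin n) ℝ)} (h : CC C Γ)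
    {p : Fin K} {J : Finset (Fin K)} {c : Fin K → ℕ} {w : Fin K → V n} (hw : QM C Γ p J c w)
    {g : GL (Fin n) ℝ} (hg : g ∈ Γ) : QM C Γ p J c (fun i => act g (w i)) := by
  obtain ⟨S, hS, hSw⟩ := hw
  refine ⟨fun w' => ∃ w0, S w0 ∧ w' = fun i => act g (w0 i), ⟨?_, ?_⟩, w, hSw, rfl⟩
  · rintro w' ⟨w0, hw0, rfl⟩
    have h1 := (Pool.Agent.PFS.H60.elm n C Γ h (Fin K) w0 (hS.1 w0 hw0)).2.1 g hg 1 one_pos
    simpa using h1
  · rintro w' ⟨w0, hw0, rfl⟩ m hm
    obtain ⟨E, hE1, hE2, hE3⟩ := hS.2 w0 hw0 m hm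
    have hcl : ∀ i, w0 i ∈ closure C := fun i => (hS.1 w0 hw0).1.cl i
    have hib := (Pool.Agent.NBT.H64.ibi n C Γ h K w0 hcl).2.2 g hg 1 one_pos {p, m} E hE1
    simp only [one_smul] at hib
    refine ⟨img g E, hib, ?_, ?_⟩
    · rw [(Pool.Agent.PFJ.H32.img n).1]
      exact hE2
    · intro x hx hxa
      obtain ⟨y, hy, hyx⟩ := mem_img.1 hx.1
      have hyB : PCO.Bd C E y := by
        refine ⟨hy, ?_, ?_, ?_⟩
        · have h1 := hx.2.1
          rw [← hyx] at h1
          exact (h.act_cl_iff hg).1 h1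
        · apply act_inv_ne (g := g)
          rw [hyx]
          exact hx.2.2.1
        · intro hU
          refine hx.2.2.2 ⟨hx.1, hx.2.1, fun v hv => ?_⟩
          obtain ⟨v0, hv0, hv0v⟩ := mem_img.1 hv
          obtain ⟨M, hM, hM1⟩ := hU.2.2 v0 hv0
          refine ⟨M, hM, ?_⟩
          have h2 := h.act_cl hg hM1
          rw [CC.act_sub, CC.act_smul, hyx, hv0v] at h2
          exact h2
      have hya : ∀ a : ℝ, y ≠ a • w0 m := by
        intro a ha
        refine hxa a ?_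
        rw [← hyx, ha, CC.act_smul]
      refine ⟨Function.update w0 p y, hE3 y hyB hya, ?_⟩
      funext i
      by_cases hi : i = p
      · subst hi
        rw [Function.update_self, Function.update_self, hyx]
      · rw [Function.update_of_ne hi, Function.update_of_ne hi]

private theorem scl_case {n K : ℕ} {C : Set (V n)} {Γ : Subgroup (GL (Fin n) ℝ)} (h : CC C Γ)
    {p : Fin K} {J : Finset (Fin K)} {c : Fin K → ℕ} {w : Fin K → V n} (hw : QM C Γ p J c w)
    {r : Fin K → ℝ} (hr : ∀ i, 0 < r i) : QM C Γ p J c (fun i => r i • w i) := by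
  obtain ⟨S, hS, hSw⟩ := hw
  refine ⟨fun w' => ∃ (w0 : Fin K → V n) (r : Fin K → ℝ), S w0 ∧ (∀ i, 0 < r i) ∧
    w' = fun i => r i • w0 i, ⟨?_, ?_⟩, w, r, hSw, hr, rfl⟩
  · rintro w' ⟨w0, r, hw0, hr, rfl⟩
    exact (Pool.Agent.PFS.H60.elm n C Γ h (Fin K) w0 (hS.1 w0 hw0)).1 r hr
  · rintro w' ⟨w0, r, hw0, hr, rfl⟩ m hm
    obtain ⟨E, hE1, hE2, hE3⟩ := hS.2 w0 hw0 m hm
    refine ⟨E, ((Pool.Agent.NBT.H13.ibf n C h.toPCone K w0 (hS.1 w0 hw0).1).1 {p, m} E
      hE1).2.2.2 r hr, hE2, ?_⟩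
    intro x hx hxa
    have hxa' : ∀ a : ℝ, x ≠ a • w0 m := by
      intro a ha
      refine hxa (a * (r m)⁻¹) ?_
      show x = (a * (r m)⁻¹) • (r m • w0 m)
      rw [smul_smul, mul_assoc, inv_mul_cancel₀ (hr m).ne', mul_one]
      exact ha
    refine ⟨Function.update w0 p x, Function.update r p 1, hE3 x hx hxa', ?_, ?_⟩
    · intro i
      by_cases hi : i = p
      · subst hi
        rw [Function.update_self]
        exact one_pos
      · rw [Function.update_of_ne hi]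
        exact hr i
    · funext i
      by_cases hi : i = p
      · subst hi
        rw [Function.update_self, Function.update_self, Function.update_self, one_smul]
      · rw [Function.update_of_ne hi, Function.update_of_ne hi, Function.update_of_ne hi]

private theorem cld_case (hSLB : SlbStmt) (hSLC : SlcStmt) {n K : ℕ} {C : Set (V n)}
    {Γ : Subgroup (GL (Fin n) ℝ)} (h : CC C Γ) (hK : 3 ≤ K) (hmax : MaxCard C Γ K)
    {p : Fin K} {J : Finset (Fin K)} {c : Fin K → ℕ} (hpJ : p ∉ J) :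
    PP C Γ p J c (fun w => IsPES C Γ w ∧ ∃ x : ℕ → Fin K → V n,
      (∀ k, QM C Γ p J c (x k)) ∧ ∀ i, Tendsto (fun k => x k i) atTop (𝓝 (w i))) := by
  refine ⟨fun w hw => hw.1, ?_⟩
  rintro w ⟨hw, x, hx, hlim⟩ m hm
  have hpm : p ≠ m := by
    rintro rfl
    exact hpJ hm
  obtain ⟨hq1, hq2⟩ := pp_moves (C := C) (Γ := Γ) (p := p) (J := J) (c := c)
  choose E hE1 hE2 hE3 using fun k => hq2 (x k) (hx k) m hm
  obtain ⟨φ, E', hφ, -, hE', hd, happ, -⟩ := hSLC n C Γ h K hK hmax x w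
    (fun k => hq1 _ (hx k)) hw hlim p m hpm E (c m) hE1 hE2
  refine ⟨E', hE', hd, ?_⟩
  intro e he hea
  obtain ⟨e', he', he'lim⟩ := happ e he
  have hwm : w m ≠ 0 := h.hul.lamNe _ (hw.2 m)
  have hev := not_mul e' (fun k => x (φ k) m) e (w m) he'lim
    ((hlim m).comp hφ.tendsto_atTop) hwm hea
  obtain ⟨N, hN⟩ := eventually_atTop.1 hev
  refine ⟨(hSLB n C Γ h K hK hmax w hw p m hpm E' hE').2.1 e he hea |>.1,
    fun k => Function.update (x (φ (k + N))) p (e' (k + N)), ?_, ?_⟩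
  · intro k
    exact hE3 (φ (k + N)) (e' (k + N)) (he' (k + N)) (hN (k + N) (Nat.le_add_left N k))
  · intro i
    by_cases hi : i = p
    · subst hi
      simp only [Function.update_self]
      exact he'lim.comp (tendsto_add_atTop_nat N)
    · simp only [Function.update_of_ne hi]
      exact ((hlim i).comp hφ.tendsto_atTop).comp (tendsto_add_atTop_nat N)

theorem qmf (hSLB : SlbStmt) (hSLC : SlcStmt) : QmfStmt := by
  intro n C Γ h K hK hmax p J c hpJ
  have hpp := pp_moves (C := C) (Γ := Γ) (p := p) (J := J) (c := c)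
  have hcard : 2 ≤ Fintype.card (Fin K) := by
    rw [Fintype.card_fin]
    omega
  refine ⟨hpp, ?_, fun S hS z hz => ⟨S, hS, hz⟩, ?_⟩
  · refine { sub := le_rfl, pes := hpp.1, inv := ?_, scl := ?_, cld := ?_, cpt := ?_ }
    · intro w hw g hg
      exact inv_case h hw hg
    · intro w hw r hr
      exact scl_case h hw hr
    · intro x w hx hlim hw
      have hs : Tendsto (fun m => ∑ i, x m i) atTop (𝓝 (∑ i, w i)) :=
        tendsto_finsetSum _ (fun i _ => hlim i)
      obtain ⟨φ, w', hφ, h1, -, h3⟩ := Pool.Agent.PFS.H37.lpsF n C Γ h (Fin K) hcard x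
        (∑ i, w i) (fun k => hpp.1 _ (hx k)) hw hs
      have e : w' = w := by
        funext i
        exact tendsto_nhds_unique (h1 i) ((hlim i).comp hφ.tendsto_atTop)
      rw [e] at h3
      exact ⟨_, cld_case hSLB hSLC h hK hmax hpJ, h3, x, hx, hlim⟩
    · intro x hx
      refine Pool.Agent.PFS.H60.zom n C Γ h (fun m => ∑ i, x m i) ?_ ?_
      · intro m
        exact (hpp.1 _ (hx m)).1.sum_mem
      · intro m
        have := (Pool.Agent.PFS.H60.elm n C Γ h (Fin K) (x m) (hpp.1 _ (hx m))).2.2.2.1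
          (fun _ => 1) (fun _ => one_pos)
        simpa using this
  · intro z
    refine ⟨fun hz => ?_, fun hz => ?_⟩
    · obtain ⟨S, hS, hz'⟩ := hz
      exact hS.1 z hz'
    · refine ⟨fun w => IsPES C Γ w, ⟨fun _ hw => hw, ?_⟩, hz⟩
      intro _ _ m hm
      exact absurd hm (Finset.notMem_empty m)

end Pool.Agent.VMX.H27
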